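import Pool.Agent.EQC.Stmts

/-!
# Squad EQC, row TWO: the union of two matchings is 2-colourable
-/

open SimpleGraph Finset

namespace Pool.Agent.EQC.H45

section

variable {Ω : Type} [LinearOrder Ω] (f : Ω → Ω)

theorem lo_lt (hf : ∀ x, f (f x) = x) {v : Ω} (h : f v ≠ v) : min v (f v) < f (min v (f v)) := by
  rcases lt_or_gt_of_ne h with h1 | h1
  · rw [min_eq_right h1.le, hf]
    exact h1
  · rw [min_eq_left h1.le]
    exact h1

theorem lo_swap (hf : ∀ x, f (f x) = x) (v : Ω) : min (f v) (f (f v)) = min v (f v) := by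
  rw [hf, min_comm]

/-- the two ends -/
theorem lo_ends (hf : ∀ x, f (f x) = x) (v : Ω) :
    (min v (f v) = v ∧ f (min v (f v)) = f v) ∨ (min v (f v) = f v ∧ f (min v (f v)) = v) := by
  rcases le_total v (f v) with h1 | h1
  · left
    rw [min_eq_left h1]
    exact ⟨rfl, rfl⟩
  · right
    rw [min_eq_right h1, hf]
    exact ⟨rfl, rfl⟩

theorem lo_uniq (hf : ∀ x, f (f x) = x) {x v : Ω} (hx : x < f x) (h : x = v ∨ f x = v) :
    f v ≠ v ∧ x = min v (f v) := by
  rcases h with rfl | rfl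
  · exact ⟨hx.ne', (min_eq_left hx.le).symm⟩
  · rw [hf]
    exact ⟨hx.ne, (min_eq_right hx.le).symm⟩

end

theorem cnt_zero {α : Type} [Fintype α] {q : α → Prop} (h : ∀ a, ¬ q a) : cnt q = 0 := by
  classical
  unfold cnt
  rw [Finset.card_eq_zero, Finset.filter_eq_empty_iff]
  exact fun a _ => h a

theorem cnt_two {α : Type} [Fintype α] {q : α → Prop} {a b : α} (hab : a ≠ b) (ha : q a)
    (hb : q b) : 2 ≤ cnt q := by
  classical
  unfold cnt
  rw [← Finset.card_pair hab]
  apply Finset.card_le_card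
  intro x hx
  rw [Finset.mem_insert, Finset.mem_singleton] at hx
  rw [Finset.mem_filter]
  rcases hx with rfl | rfl
  · exact ⟨Finset.mem_univ _, ha⟩
  · exact ⟨Finset.mem_univ _, hb⟩

theorem two_aux (bal : BalStmt) (Ω : Type) [Fintype Ω] [LinearOrder Ω] (p m : Ω → Ω)
    (hp : ∀ x, p (p x) = x) (hm : ∀ x, m (m x) = x) :
    ∃ χ : Ω → Bool, (∀ x, p x ≠ x → χ (p x) ≠ χ x) ∧ (∀ x, m x ≠ x → χ (m x) ≠ χ x) := by
  classical
  let ι := {x : Ω // x < p x} ⊕ {x : Ω // x < m x}
  let s : ι → Ω := fun i => Sum.elim (fun x => x.1) (fun x => x.1) i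
  let t : ι → Ω := fun i => Sum.elim (fun x => p x.1) (fun x => m x.1) i
  obtain ⟨o, ho⟩ := bal ι Ω s t
  let hd : ι → Ω := fun i => if o i then s i else t i
  let tl : ι → Ω := fun i => if o i then t i else s i
  have ho1 : ∀ v, cnt (fun i => hd i = v) ≤ cnt (fun i => tl i = v) + 1 := fun v => (ho v).1
  have ho2 : ∀ v, cnt (fun i => tl i = v) ≤ cnt (fun i => hd i = v) + 1 := fun v => (ho v).2
  -- head and tail are different
  have hst : ∀ i, s i ≠ t i := by
    rintro (x | x)
    · exact x.2.ne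
    · exact x.2.ne
  have hht : ∀ i, hd i ≠ tl i := by
    intro i
    by_cases h : o i = true
    · simp only [hd, tl, h, if_true]
      exact hst i
    · simp only [hd, tl, if_neg h]
      exact (hst i).symm
  have hends : ∀ i v, (hd i = v ∨ tl i = v) → (s i = v ∨ t i = v) := by
    intro i v h
    by_cases h1 : o i = true
    · simpa only [hd, tl, h1, if_true] using h
    · simp only [hd, tl, if_neg h1] at h
      exact h.symm
  have hends' : ∀ i, (hd i = s i ∧ tl i = t i) ∨ (hd i = t i ∧ tl i = s i) := by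
    intro i
    by_cases h1 : o i = true
    · exact Or.inl ⟨if_pos h1, if_pos h1⟩
    · exact Or.inr ⟨if_neg h1, if_neg h1⟩
  -- the edges at `v`
  let ep : ∀ v, p v ≠ v → ι := fun v h => Sum.inl ⟨min v (p v), lo_lt p hp h⟩
  let em : ∀ v, m v ≠ v → ι := fun v h => Sum.inr ⟨min v (m v), lo_lt m hm h⟩
  have hep : ∀ v h, (hd (ep v h) = v ∧ tl (ep v h) = p v) ∨
      (hd (ep v h) = p v ∧ tl (ep v h) = v) := by
    intro v h
    have hE : (s (ep v h) = v ∧ t (ep v h) = p v) ∨ (s (ep v h) = p v ∧ t (ep v h) = v) :=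
      lo_ends p hp v
    rcases hends' (ep v h) with ⟨a1, a2⟩ | ⟨a1, a2⟩ <;> rcases hE with ⟨b1, b2⟩ | ⟨b1, b2⟩
    · exact Or.inl ⟨a1.trans b1, a2.trans b2⟩
    · exact Or.inr ⟨a1.trans b1, a2.trans b2⟩
    · exact Or.inr ⟨a1.trans b2, a2.trans b1⟩
    · exact Or.inl ⟨a1.trans b2, a2.trans b1⟩
  have hem : ∀ v h, (hd (em v h) = v ∧ tl (em v h) = m v) ∨
      (hd (em v h) = m v ∧ tl (em v h) = v) := by
    intro v h
    have hE : (s (em v h) = v ∧ t (em v h) = m v) ∨ (s (em v h) = m v ∧ t (em v h) = v) :=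
      lo_ends m hm v
    rcases hends' (em v h) with ⟨a1, a2⟩ | ⟨a1, a2⟩ <;> rcases hE with ⟨b1, b2⟩ | ⟨b1, b2⟩
    · exact Or.inl ⟨a1.trans b1, a2.trans b2⟩
    · exact Or.inr ⟨a1.trans b1, a2.trans b2⟩
    · exact Or.inr ⟨a1.trans b2, a2.trans b1⟩
    · exact Or.inl ⟨a1.trans b2, a2.trans b1⟩
  have huniq : ∀ i v, (hd i = v ∨ tl i = v) →
      (∃ h, i = ep v h) ∨ (∃ h, i = em v h) := by
    intro i v h
    rcases i with ⟨x, hx⟩ | ⟨x, hx⟩
    · left
      obtain ⟨h1, h2⟩ := lo_uniq p hp hx (hends _ v h)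
      exact ⟨h1, congrArg Sum.inl (Subtype.ext h2)⟩
    · right
      obtain ⟨h1, h2⟩ := lo_uniq m hm hx (hends _ v h)
      exact ⟨h1, congrArg Sum.inr (Subtype.ext h2)⟩
  have hpm : ∀ v h h', ep v h ≠ em v h' := fun v h h' => Sum.inl_ne_inr
  -- balance at the vertices with two edges
  have hbal : ∀ v h h', hd (ep v h) = v ↔ ¬ hd (em v h') = v := by
    intro v h h'
    constructor
    · intro h1 h2
      have h3 := cnt_two (q := fun i => hd i = v) (hpm v h h') h1 h2
      have h4 : cnt (fun i => tl i = v) = 0 := by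
        apply cnt_zero
        intro i hi
        rcases huniq i v (Or.inr hi) with ⟨g, rfl⟩ | ⟨g, rfl⟩
        · exact hht _ (h1.trans hi.symm)
        · exact hht _ (h2.trans hi.symm)
      have h5 := ho1 v
      omega
    · intro h2
      by_contra h1
      have t1 : tl (ep v h) = v := by
        rcases hep v h with ⟨a, -⟩ | ⟨-, a⟩
        · exact absurd a h1
        · exact a
      have t2 : tl (em v h') = v := by
        rcases hem v h' with ⟨a, -⟩ | ⟨-, a⟩
        · exact absurd a h2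
        · exact a
      have h3 := cnt_two (q := fun i => tl i = v) (hpm v h h') t1 t2
      have h4 : cnt (fun i => hd i = v) = 0 := by
        apply cnt_zero
        intro i hi
        rcases huniq i v (Or.inl hi) with ⟨g, rfl⟩ | ⟨g, rfl⟩
        · exact hht _ (hi.trans t1.symm)
        · exact hht _ (hi.trans t2.symm)
      have h5 := ho2 v
      omega
  let χ : Ω → Bool := fun v => if h : p v ≠ v then decide (hd (ep v h) = v)
    else if h' : m v ≠ v then decide (¬ hd (em v h') = v) else false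
  have hχp : ∀ v h, χ v = decide (hd (ep v h) = v) := by
    intro v h
    simp only [χ]
    rw [dif_pos h]
  have hχm : ∀ v h', χ v = decide (¬ hd (em v h') = v) := by
    intro v h'
    by_cases h : p v ≠ v
    · rw [hχp v h]
      exact decide_eq_decide.2 (hbal v h h')
    · simp only [χ]
      rw [dif_neg h, dif_pos h']
  refine ⟨χ, fun v h => ?_, fun v h => ?_⟩
  · have h' : p (p v) ≠ p v := by
      rw [hp]
      exact h.symm
    have e1 : ep (p v) h' = ep v h := congrArg Sum.inl (Subtype.ext (lo_swap p hp v))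
    rw [hχp v h, hχp (p v) h', e1, Ne, decide_eq_decide]
    rcases hep v h with ⟨a, -⟩ | ⟨a, -⟩ <;> rw [a]
    · intro hh
      exact h (hh.2 rfl).symm
    · intro hh
      exact h (hh.1 rfl)
  · have h' : m (m v) ≠ m v := by
      rw [hm]
      exact h.symm
    have e1 : em (m v) h' = em v h := congrArg Sum.inr (Subtype.ext (lo_swap m hm v))
    rw [hχm v h, hχm (m v) h', e1, Ne, decide_eq_decide]
    rcases hem v h with ⟨a, -⟩ | ⟨a, -⟩ <;> rw [a]
    · intro hh
      exact hh.1 (fun hv => h hv.symm) rfl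
    · intro hh
      exact hh.2 (fun hv => h hv) rfl

theorem two (bal : BalStmt) : TwoStmt := by
  intro Ω _ p m hp hm
  letI : LinearOrder Ω := LinearOrder.lift' (Fintype.equivFin Ω) (Fintype.equivFin Ω).injective
  exact two_aux bal Ω p m hp hm

end Pool.Agent.EQC.H45
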